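import Mathlib
import Pool.Agent.MP_291af2_co.Defs

-- part MP_291af2_co.Abstract
section

/-!
The row of a move is determined by the unlabeled tree (abstract version).
-/

set_option autoImplicit false

namespace Pool.Agent.MP_291af2_co

/-- A cell can be added to row `i`. -/
def Valid (l : ℕ → ℕ) (i : ℕ) : Prop := ∀ j, i = j + 1 → l i < l j

/-- Adding a cell to row `i`. -/
def bump (l : ℕ → ℕ) (i : ℕ) : ℕ → ℕ := Function.update l i (l i + 1)

theorem bump_self (l : ℕ → ℕ) (i : ℕ) : bump l i i = l i + 1 := by simp [bump]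

theorem bump_ne (l : ℕ → ℕ) {i j : ℕ} (h : j ≠ i) : bump l i j = l j := by simp [bump, h]

theorem bump_inj (l : ℕ → ℕ) {i j : ℕ} (h : bump l i = bump l j) : i = j := by
  by_contra hij
  have := congrFun h i
  rw [bump_self, bump_ne l hij] at this
  omega

/-- The axioms of the tree of growing shapes. -/
structure Growth (k : ℕ) {V : Type} (ch : V → V → Prop) (lam : V → ℕ → ℕ) : Prop where
  anti : ∀ T, Antitone (lam T)
  move : ∀ T T', ch T T' → ∃ i < k, lam T' = bump (lam T) i
  grow : ∀ T i, i < k → Valid (lam T) i → ∃ T', ch T T' ∧ lam T' = bump (lam T) i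
  uniq : ∀ T T₁ T₂, ch T T₁ → ch T T₂ → lam T₁ = lam T₂ → T₁ = T₂

/-- The number of cells needed to make the rows `j, ..., k - 1` equal. -/
def defect (k j : ℕ) (l : ℕ → ℕ) : ℤ := ∑ i ∈ Finset.Ioo j k, ((l j : ℤ) - l i)

theorem defect_nonneg (k j : ℕ) {l : ℕ → ℕ} (hl : Antitone l) : 0 ≤ defect k j l :=
  Finset.sum_nonneg fun i hi => by
    have := hl (Finset.mem_Ioo.1 hi).1.le
    omega

theorem defect_bump_lt (k : ℕ) {i j : ℕ} (l : ℕ → ℕ) (h : i < j) :
    defect k j (bump l i) = defect k j l :=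
  Finset.sum_congr rfl fun a ha => by
    have := (Finset.mem_Ioo.1 ha).1
    rw [bump_ne l h.ne', bump_ne l (by omega)]

theorem defect_bump_self (k j : ℕ) (l : ℕ → ℕ) : defect k j l ≤ defect k j (bump l j) :=
  Finset.sum_le_sum fun a ha => by
    have := (Finset.mem_Ioo.1 ha).1
    rw [bump_self, bump_ne l this.ne']
    push_cast
    omega

theorem defect_bump_gt {k i j : ℕ} (l : ℕ → ℕ) (h : j < i) (hi : i < k) :
    defect k j (bump l i) = defect k j l - 1 := by
  have hm : i ∈ Finset.Ioo j k := Finset.mem_Ioo.2 ⟨h, hi⟩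
  unfold defect
  rw [← Finset.add_sum_erase _ _ hm, ← Finset.add_sum_erase _ _ hm, bump_self, bump_ne l h.ne]
  have : ∑ a ∈ (Finset.Ioo j k).erase i, ((l j : ℤ) - bump l i a) =
      ∑ a ∈ (Finset.Ioo j k).erase i, ((l j : ℤ) - l a) :=
    Finset.sum_congr rfl fun a ha => by rw [bump_ne l (Finset.mem_erase.1 ha).1]
  rw [this]
  push_cast
  ring

theorem exists_valid_of_defect_ne {k j : ℕ} {l : ℕ → ℕ} (hl : Antitone l)
    (h : defect k j l ≠ 0) : ∃ i, j < i ∧ i < k ∧ Valid l i := by
  obtain ⟨a, ha, h1⟩ := Finset.exists_ne_zero_of_sum_ne_zero h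
  have hex : ∃ a, l a < l j := by
    refine ⟨a, ?_⟩
    have := hl (Finset.mem_Ioo.1 ha).1.le
    omega
  have h2 := Nat.find_spec hex
  have h3 : Nat.find hex ≤ a := by
    refine Nat.find_min' hex ?_
    have := hl (Finset.mem_Ioo.1 ha).1.le
    omega
  refine ⟨Nat.find hex, ?_, h3.trans_lt (Finset.mem_Ioo.1 ha).2, fun b hb => ?_⟩
  · by_contra hn
    exact (hl (not_lt.1 hn)).not_gt h2
  · have := Nat.find_min hex (m := b) (by omega)
    omega

section

variable {k : ℕ} {V : Type} {ch : V → V → Prop} {lam : V → ℕ → ℕ}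

/-- A move in row `i`. -/
def Mv (ch : V → V → Prop) (lam : V → ℕ → ℕ) (i : ℕ) (T T' : V) : Prop :=
  ch T T' ∧ lam T' = bump (lam T) i

/-- A move in a row above row `j`. -/
def Low (ch : V → V → Prop) (lam : V → ℕ → ℕ) (j : ℕ) (T T' : V) : Prop :=
  ∃ i < j, Mv ch lam i T T'

theorem exists_stair (G : Growth k ch lam) (j : ℕ) (hj : j < k) (T : V) :
    ∃ S, Relation.ReflTransGen (Low ch lam j) T S ∧ Valid (lam S) j ∧
      ∀ i, j ≤ i → lam S i = lam T i := by
  induction j with
  | zero => exact ⟨T, .refl, fun j h => by omega, fun _ _ => rfl⟩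
  | succ j ih =>
    obtain ⟨S, h1, h2, h3⟩ := ih (by omega)
    obtain ⟨S', h4, h5⟩ := G.grow S j (by omega) h2
    refine ⟨S', .tail (Relation.ReflTransGen.mono
      (fun a b ⟨i, hi, h⟩ => ⟨i, by omega, h⟩) _ _ h1) ⟨j, by omega, h4, h5⟩,
      fun a ha => ?_, fun i hi => ?_⟩
    · obtain rfl : a = j := by omega
      rw [h5, bump_self, bump_ne _ (by omega)]
      have := G.anti S (Nat.le_succ a)
      exact Nat.lt_succ_of_le this
    · rw [h5, bump_ne _ (by omega), h3 i (by omega)]

theorem defect_eq_zero_iff (G : Growth k ch lam) (j : ℕ) (hj : j < k) (T : V) :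
    defect k j (lam T) = 0 ↔ ∀ S, Relation.ReflTransGen (Low ch lam j) T S →
      ∀ A B, ch S A → ch S B → ¬ Low ch lam j S A → ¬ Low ch lam j S B → A = B := by
  constructor
  · intro h S hS
    have h1 : defect k j (lam S) = 0 := by
      induction hS with
      | refl => exact h
      | tail _ h2 ih =>
        obtain ⟨i, hi, -, h3⟩ := h2
        rw [h3, defect_bump_lt k _ hi, ih]
    have key : ∀ A, ch S A → ¬ Low ch lam j S A → lam A = bump (lam S) j := by
      intro A hA hn
      obtain ⟨i, hi, h2⟩ := G.move S A hA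
      rcases lt_trichotomy i j with h3 | rfl | h3
      · exact (hn ⟨i, h3, hA, h2⟩).elim
      · exact h2
      · have h4 := defect_nonneg k j (G.anti A)
        rw [h2, defect_bump_gt _ h3 hi, h1] at h4
        omega
    intro A B hA hB hnA hnB
    exact G.uniq S A B hA hB ((key A hA hnA).trans (key B hB hnB).symm)
  · intro h
    by_contra hne
    obtain ⟨i, hji, hik, hv⟩ := exists_valid_of_defect_ne (G.anti T) hne
    obtain ⟨S, h1, h2, h3⟩ := exists_stair G j hj T
    obtain ⟨A, hA, hA'⟩ := G.grow S j hj h2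
    obtain ⟨B, hB, hB'⟩ := G.grow S i hik (fun a ha => by
      rw [h3 i hji.le, h3 a (by omega)]
      exact hv a ha)
    have h4 := h S h1 A B hA hB (by
      rintro ⟨a, ha, -, h5⟩
      have := bump_inj _ (hA'.symm.trans h5)
      omega) (by
      rintro ⟨a, ha, -, h5⟩
      have := bump_inj _ (hB'.symm.trans h5)
      omega)
    rw [h4] at hA'
    have := bump_inj _ (hA'.symm.trans hB')
    omega

theorem defect_le_succ_iff (G : Growth k ch lam) (j n : ℕ) (T : V) :
    defect k j (lam T) ≤ (n + 1 : ℕ) ↔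
      defect k j (lam T) = 0 ∨ ∃ T', ch T T' ∧ defect k j (lam T') ≤ n := by
  constructor
  · intro h
    by_cases h0 : defect k j (lam T) = 0
    · exact Or.inl h0
    obtain ⟨i, hji, hik, hv⟩ := exists_valid_of_defect_ne (G.anti T) h0
    obtain ⟨T', h1, h2⟩ := G.grow T i hik hv
    refine Or.inr ⟨T', h1, ?_⟩
    rw [h2, defect_bump_gt _ hji hik]
    push_cast at h
    omega
  · rintro (h | ⟨T', h1, h2⟩)
    · rw [h]; positivity
    · obtain ⟨i, hi, h3⟩ := G.move T T' h1
      rw [h3] at h2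
      push_cast
      rcases lt_trichotomy i j with h4 | rfl | h4
      · rw [defect_bump_lt k _ h4] at h2; omega
      · have := defect_bump_self k i (lam T); omega
      · rw [defect_bump_gt _ h4 hi] at h2; omega

theorem mv_iff (G : Growth k ch lam) (j : ℕ) (hj : j < k) (T T' : V) :
    Mv ch lam j T T' ↔ ch T T' ∧ ¬ Low ch lam j T T' ∧
      defect k j (lam T) ≤ defect k j (lam T') := by
  constructor
  · rintro ⟨h1, h2⟩
    refine ⟨h1, ?_, ?_⟩
    · rintro ⟨a, ha, -, h5⟩
      have := bump_inj _ (h2.symm.trans h5)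
      omega
    · rw [h2]; exact defect_bump_self _ _ _
  · rintro ⟨h1, h2, h3⟩
    obtain ⟨i, hi, h4⟩ := G.move T T' h1
    rcases lt_trichotomy i j with h5 | rfl | h5
    · exact (h2 ⟨i, h5, h1, h4⟩).elim
    · exact ⟨h1, h4⟩
    · rw [h4, defect_bump_gt _ h5 hi] at h3; omega

theorem mv_invariant (G : Growth k ch lam) (φ : V ≃ V)
    (hφ : ∀ T T', ch (φ T) (φ T') ↔ ch T T') (j : ℕ) (hj : j < k) :
    ∀ T T', Mv ch lam j (φ T) (φ T') ↔ Mv ch lam j T T' := by
  induction j using Nat.strong_induction_on with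
  | _ j ih =>
    have hlow : ∀ T T', Low ch lam j (φ T) (φ T') ↔ Low ch lam j T T' := fun T T' =>
      exists_congr fun i => and_congr_right fun hi => ih i hi (hi.trans hj) T T'
    have hrt : ∀ T S, Relation.ReflTransGen (Low ch lam j) (φ T) (φ S) ↔
        Relation.ReflTransGen (Low ch lam j) T S := by
      intro T S
      constructor
      · intro h
        have := h.lift (p := Low ch lam j) φ.symm fun a b hab => by
          show Low ch lam j (φ.symm a) (φ.symm b)
          rw [← hlow]; simpa using hab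
        simpa [Function.onFun] using this
      · exact fun h => h.lift φ fun a b hab => (hlow a b).2 hab
    have h0 : ∀ T, defect k j (lam (φ T)) = 0 ↔ defect k j (lam T) = 0 := by
      intro T
      rw [defect_eq_zero_iff G j hj, defect_eq_zero_iff G j hj, φ.surjective.forall]
      refine forall_congr' fun S => ?_
      rw [hrt, φ.surjective.forall]
      refine imp_congr_right fun _ => forall_congr' fun A => ?_
      rw [φ.surjective.forall]
      refine forall_congr' fun B => ?_
      rw [hφ, hφ, hlow, hlow, φ.apply_eq_iff_eq]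
    have hn : ∀ (n : ℕ) T, defect k j (lam (φ T)) ≤ n ↔ defect k j (lam T) ≤ n := by
      intro n
      induction n with
      | zero =>
        intro T
        have h1 := defect_nonneg k j (G.anti T)
        have h2 := defect_nonneg k j (G.anti (φ T))
        have h3 := h0 T
        push_cast
        omega
      | succ n ihn =>
        intro T
        rw [defect_le_succ_iff G, defect_le_succ_iff G, h0, φ.surjective.exists]
        refine or_congr_right (exists_congr fun T' => ?_)
        rw [hφ, ihn]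
    have he : ∀ T, defect k j (lam (φ T)) = defect k j (lam T) := by
      intro T
      have h1 := defect_nonneg k j (G.anti T)
      have h2 := defect_nonneg k j (G.anti (φ T))
      have h3 := hn (defect k j (lam T)).toNat T
      have h4 := hn (defect k j (lam (φ T))).toNat T
      omega
    intro T T'
    rw [mv_iff G j hj, mv_iff G j hj, hφ, hlow, he, he]

end

end Pool.Agent.MP_291af2_co

end

-- part MP_291af2_co.Concrete
section

/-!
The tree of standard Young tableaux satisfies the growth axioms; rigidity.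
-/

set_option autoImplicit false

namespace Pool.Agent.MP_291af2_co

variable {k : ℕ}

theorem SYT.ext' {T T' : SYT k} (h1 : T.shape = T'.shape) (h2 : T.entry = T'.entry) : T = T' := by
  cases T
  cases T'
  cases h1
  cases h2
  rfl

theorem shape_ext_rowLen {μ ν : YoungDiagram} (h : μ.rowLen = ν.rowLen) : μ = ν := by
  ext ⟨i, j⟩
  simp only [YoungDiagram.mem_cells, YoungDiagram.mem_iff_lt_rowLen, h]

theorem SYT.entry_mem (T : SYT k) {c : ℕ × ℕ} (hc : c ∈ T.shape) :
    1 ≤ T.entry c ∧ T.entry c ≤ T.shape.cells.card :=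
  T.bijOn.mapsTo (by simpa using hc)

theorem SYT.entry_lt (T : SYT k) {c d : ℕ × ℕ} (hd : d ∈ T.shape) (hcd : c ≤ d) (hne : c ≠ d) :
    T.entry c < T.entry d := by
  obtain ⟨i₁, j₁⟩ := c
  obtain ⟨i₂, j₂⟩ := d
  obtain ⟨hi, hj⟩ := hcd
  simp only at hi hj
  rcases hi.eq_or_lt with rfl | hi'
  · rcases hj.eq_or_lt with rfl | hj'
    · exact (hne rfl).elim
    · exact T.row_strict _ _ _ hj' hd
  · rcases hj.eq_or_lt with rfl | hj'
    · exact T.col_strict _ _ _ hi' hd
    · exact (T.row_strict _ _ _ hj' (T.shape.up_left_mem hi le_rfl hd)).trans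
        (T.col_strict _ _ _ hi' hd)

theorem IsChild.entry_new {T T' : SYT k} (h : IsChild T T') {c : ℕ × ℕ} (hc : c ∈ T'.shape)
    (hn : c ∉ T.shape) : T'.entry c = T.shape.cells.card + 1 := by
  obtain ⟨h1, h2⟩ := T'.entry_mem hc
  rw [h.1] at h2
  by_contra hne
  obtain ⟨d, hd, hd'⟩ := T.bijOn.surjOn (show T'.entry c ∈ Set.Icc 1 T.shape.cells.card from
    ⟨h1, by omega⟩)
  have hd1 : d ∈ T.shape := by simpa using hd
  have := T'.bijOn.injOn (by simpa using h.2.1 hd1) (by simpa using hc)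
    ((h.2.2 d hd1).trans hd')
  exact hn (this ▸ hd1)

theorem IsChild.mem_iff {T T' : SYT k} (h : IsChild T T') (c : ℕ × ℕ) :
    c ∈ T.shape ↔ c ∈ T'.shape ∧ T'.entry c ≤ T.shape.cells.card := by
  constructor
  · intro hc
    exact ⟨h.2.1 hc, (h.2.2 c hc).symm ▸ (T.entry_mem hc).2⟩
  · rintro ⟨h1, h2⟩
    by_contra hn
    rw [h.entry_new h1 hn] at h2
    omega

theorem parent_unique {T₁ T₂ T' : SYT k} (h₁ : IsChild T₁ T') (h₂ : IsChild T₂ T') : T₁ = T₂ := by
  have hc : T₁.shape.cells.card = T₂.shape.cells.card := by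
    have := h₁.1
    have := h₂.1
    omega
  have hs : T₁.shape = T₂.shape := by
    ext c
    simp only [YoungDiagram.mem_cells]
    rw [h₁.mem_iff, h₂.mem_iff, hc]
  refine SYT.ext' hs (funext fun c => ?_)
  by_cases hc : c ∈ T₁.shape
  · rw [← h₁.2.2 c hc, ← h₂.2.2 c (hs ▸ hc)]
  · rw [T₁.zeros c hc, T₂.zeros c (hs ▸ hc)]

theorem child_unique {T T₁ T₂ : SYT k} (h₁ : IsChild T T₁) (h₂ : IsChild T T₂)
    (h : T₁.shape.rowLen = T₂.shape.rowLen) : T₁ = T₂ := by
  have hs := shape_ext_rowLen h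
  refine SYT.ext' hs (funext fun c => ?_)
  by_cases hc : c ∈ T.shape
  · rw [h₁.2.2 c hc, h₂.2.2 c hc]
  · by_cases hc' : c ∈ T₁.shape
    · rw [h₁.entry_new hc' hc, h₂.entry_new (hs ▸ hc') hc]
    · rw [T₁.zeros c hc', T₂.zeros c (hs ▸ hc')]

theorem rowLen_of_insert {μ ν : YoungDiagram} {i : ℕ}
    (h : ∀ c, c ∈ ν ↔ c = (i, μ.rowLen i) ∨ c ∈ μ) : ν.rowLen = bump μ.rowLen i := by
  funext a
  refine eq_of_forall_lt_iff fun j => ?_
  rw [← YoungDiagram.mem_iff_lt_rowLen, h, YoungDiagram.mem_iff_lt_rowLen]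
  by_cases ha : a = i
  · subst ha
    rw [bump_self]
    simp only [Prod.mk.injEq, true_and]
    omega
  · rw [bump_ne _ ha]
    simp [ha]

theorem IsChild.move {T T' : SYT k} (h : IsChild T T') :
    ∃ i < k, T'.shape.rowLen = bump T.shape.rowLen i := by
  obtain ⟨⟨i, j⟩, hn, hc⟩ := Finset.exists_eq_insert_iff.2
    ⟨YoungDiagram.cells_subset_iff.2 h.2.1, h.1.symm⟩
  have hmem : ∀ c, c ∈ T'.shape ↔ c = (i, j) ∨ c ∈ T.shape := by
    intro c
    rw [← YoungDiagram.mem_cells, ← hc]
    simp
  have hij : (i, j) ∈ T'.shape := (hmem _).2 (Or.inl rfl)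
  have hj : j = T.shape.rowLen i := by
    have h1 : ¬ j < T.shape.rowLen i := by
      rw [← YoungDiagram.mem_iff_lt_rowLen]
      simpa using hn
    by_contra hne
    have h2 : T.shape.rowLen i < j := by omega
    rcases (hmem _).1 (T'.shape.up_left_mem le_rfl h2.le hij) with h3 | h3
    · exact hne (Prod.mk.inj h3).2.symm
    · rw [YoungDiagram.mem_iff_lt_rowLen] at h3
      omega
  subst hj
  refine ⟨i, ?_, rowLen_of_insert hmem⟩
  have := YoungDiagram.mem_iff_lt_colLen.1 (T'.shape.up_left_mem le_rfl (Nat.zero_le _) hij)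
  exact this.trans_le T'.rows_le

theorem exists_child (T : SYT k) (i : ℕ) (hi : i < k) (hv : Valid T.shape.rowLen i) :
    ∃ T', IsChild T T' ∧ T'.shape.rowLen = bump T.shape.rowLen i := by
  set c : ℕ × ℕ := (i, T.shape.rowLen i) with hc
  have hcn : c ∉ T.shape := by
    rw [hc, YoungDiagram.mem_iff_lt_rowLen]
    omega
  have hlow : ∀ d, d ≤ c → d ≠ c → d ∈ T.shape := by
    rintro ⟨a, b⟩ ⟨ha, hb⟩ hne
    simp only [hc] at ha hb
    rw [YoungDiagram.mem_iff_lt_rowLen]
    rcases ha.eq_or_lt with rfl | ha'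
    · exact lt_of_le_of_ne hb fun e => hne (by rw [hc, e])
    · obtain ⟨m, rfl⟩ : ∃ m, i = m + 1 := ⟨i - 1, by omega⟩
      have h1 := hv m rfl
      have h2 := T.shape.rowLen_anti a m (by omega)
      omega
  let ν : YoungDiagram :=
    { cells := insert c T.shape.cells
      isLowerSet := by
        intro x y hyx hx
        simp only [Finset.coe_insert, Set.mem_insert_iff, SetLike.mem_coe,
          YoungDiagram.mem_cells] at hx ⊢
        rcases hx with rfl | hx
        · by_cases h : y = c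
          · exact Or.inl h
          · exact Or.inr (hlow y hyx h)
        · exact Or.inr (T.shape.isLowerSet hyx hx) }
  have hmem : ∀ d, d ∈ ν ↔ d = c ∨ d ∈ T.shape := by
    intro d
    rw [← YoungDiagram.mem_cells]
    simp [ν]
  have hcard : ν.cells.card = T.shape.cells.card + 1 :=
    Finset.card_insert_of_notMem (by simpa using hcn)
  let e : ℕ × ℕ → ℕ := Function.update T.entry c (T.shape.cells.card + 1)
  have he1 : e c = T.shape.cells.card + 1 := by simp [e]
  have he2 : ∀ d, d ≠ c → e d = T.entry d := fun d hd => by simp [e, hd]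
  have he3 : ∀ d ∈ T.shape, e d = T.entry d := fun d hd => he2 d fun h => hcn (h ▸ hd)
  have hlt : ∀ x y, y ∈ ν → x ≤ y → x ≠ y → e x < e y := by
    intro x y hy hxy hne
    rcases (hmem y).1 hy with rfl | hy'
    · have hx := hlow x hxy hne
      rw [he1, he3 x hx]
      exact Nat.lt_succ_of_le (T.entry_mem hx).2
    · have hx : x ∈ T.shape := T.shape.isLowerSet hxy hy'
      rw [he3 x hx, he3 y hy']
      exact T.entry_lt hy' hxy hne
  refine ⟨⟨ν, e, ?_, ⟨?_, ?_, ?_⟩, ?_, ?_, ?_⟩, ⟨hcard, ?_, he3⟩, rowLen_of_insert hmem⟩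
  · by_contra hn
    have h1 : (k, 0) ∈ ν := YoungDiagram.mem_iff_lt_colLen.2 (by omega)
    rcases (hmem _).1 h1 with h2 | h2
    · have := (Prod.mk.inj h2).1
      omega
    · have := YoungDiagram.mem_iff_lt_colLen.1 h2
      have := T.rows_le
      omega
  · intro d hd
    rw [hcard]
    rcases (hmem d).1 (by simpa using hd) with rfl | hd'
    · rw [he1]; exact ⟨by omega, le_rfl⟩
    · rw [he3 d hd']
      have := T.entry_mem hd'
      exact ⟨this.1, by omega⟩
  · intro x hx y hy hxy
    rcases (hmem x).1 (by simpa using hx) with rfl | hx' <;>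
      rcases (hmem y).1 (by simpa using hy) with rfl | hy'
    · rfl
    · rw [he1, he3 y hy'] at hxy
      have := T.entry_mem hy'
      omega
    · rw [he1, he3 x hx'] at hxy
      have := T.entry_mem hx'
      omega
    · rw [he3 x hx', he3 y hy'] at hxy
      exact T.bijOn.injOn (by simpa using hx') (by simpa using hy') hxy
  · intro n hn
    rw [hcard] at hn
    rcases hn.2.eq_or_lt with rfl | hn'
    · exact ⟨c, by simpa using (hmem c).2 (Or.inl rfl), he1⟩
    · obtain ⟨d, hd, hd'⟩ := T.bijOn.surjOn (show n ∈ Set.Icc 1 T.shape.cells.card from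
        ⟨hn.1, by omega⟩)
      have hd1 : d ∈ T.shape := by simpa using hd
      exact ⟨d, by simpa using (hmem d).2 (Or.inr hd1), (he3 d hd1).trans hd'⟩
  · intro a j₁ j₂ hj hm
    exact hlt _ _ hm ⟨le_rfl, hj.le⟩ fun h => hj.ne (Prod.mk.inj h).2
  · intro i₁ i₂ j hj hm
    exact hlt _ _ hm ⟨hj.le, le_rfl⟩ fun h => hj.ne (Prod.mk.inj h).1
  · intro d hd
    rw [hmem, not_or] at hd
    rw [he2 d hd.1, T.zeros d hd.2]
  · intro d hd
    exact (hmem d).2 (Or.inr hd)

theorem exists_parent (T : SYT k) (n : ℕ) (hn : T.shape.cells.card = n + 1) :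
    ∃ S, IsChild S T := by
  obtain ⟨c, hc, hce⟩ := T.bijOn.surjOn (show n + 1 ∈ Set.Icc 1 T.shape.cells.card from
    ⟨by omega, hn.ge⟩)
  have hc1 : c ∈ T.shape := by simpa using hc
  have hmax : ∀ d ∈ T.shape, c ≤ d → d = c := by
    intro d hd hcd
    by_contra hne
    have h1 := T.entry_lt hd hcd (Ne.symm hne)
    have h2 := (T.entry_mem hd).2
    omega
  let ν : YoungDiagram :=
    { cells := T.shape.cells.erase c
      isLowerSet := by
        intro x y hyx hx
        simp only [Finset.coe_erase, Set.mem_sdiff, SetLike.mem_coe, YoungDiagram.mem_cells,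
          Set.mem_singleton_iff] at hx ⊢
        refine ⟨T.shape.isLowerSet hyx hx.1, fun h => hx.2 (hmax x hx.1 (h ▸ hyx))⟩ }
  have hmem : ∀ d, d ∈ ν ↔ d ≠ c ∧ d ∈ T.shape := by
    intro d
    rw [← YoungDiagram.mem_cells]
    simp [ν]
  have hcard : ν.cells.card = n := by
    have := Finset.card_erase_of_mem (s := T.shape.cells) (a := c) (by simpa using hc1)
    simp only [ν]
    omega
  let e : ℕ × ℕ → ℕ := Function.update T.entry c 0
  have he2 : ∀ d, d ≠ c → e d = T.entry d := fun d hd => by simp [e, hd]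
  have hlt : ∀ x y, y ∈ ν → x ≤ y → x ≠ y → e x < e y := by
    intro x y hy hxy hne
    have hx : x ∈ ν := ν.isLowerSet hxy hy
    rw [he2 x ((hmem x).1 hx).1, he2 y ((hmem y).1 hy).1]
    exact T.entry_lt ((hmem y).1 hy).2 hxy hne
  refine ⟨⟨ν, e, ?_, ⟨?_, ?_, ?_⟩, ?_, ?_, ?_⟩, ⟨by simp only [hcard, hn], ?_, ?_⟩⟩
  · by_contra hk
    have h1 : (k, 0) ∈ ν := YoungDiagram.mem_iff_lt_colLen.2 (by omega)
    have := YoungDiagram.mem_iff_lt_colLen.1 ((hmem _).1 h1).2
    have := T.rows_le
    omega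
  · intro d hd
    obtain ⟨h1, h2⟩ := (hmem d).1 (by simpa using hd)
    rw [hcard, he2 d h1]
    have h3 := T.entry_mem h2
    have h4 : T.entry d ≠ n + 1 := fun h =>
      h1 (T.bijOn.injOn (by simpa using h2) hc (h.trans hce.symm))
    exact ⟨h3.1, by omega⟩
  · intro x hx y hy hxy
    obtain ⟨h1, h2⟩ := (hmem x).1 (by simpa using hx)
    obtain ⟨h3, h4⟩ := (hmem y).1 (by simpa using hy)
    rw [he2 x h1, he2 y h3] at hxy
    exact T.bijOn.injOn (by simpa using h2) (by simpa using h4) hxy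
  · intro m hm
    rw [hcard] at hm
    obtain ⟨d, hd, hd'⟩ := T.bijOn.surjOn (show m ∈ Set.Icc 1 T.shape.cells.card from
      ⟨hm.1, by have := hm.2; omega⟩)
    have hne : d ≠ c := by
      rintro rfl
      have := hm.2
      omega
    exact ⟨d, by simpa using (hmem d).2 ⟨hne, by simpa using hd⟩, (he2 d hne).trans hd'⟩
  · intro a j₁ j₂ hj hm
    exact hlt _ _ hm ⟨le_rfl, hj.le⟩ fun h => hj.ne (Prod.mk.inj h).2
  · intro i₁ i₂ j hj hm
    exact hlt _ _ hm ⟨hj.le, le_rfl⟩ fun h => hj.ne (Prod.mk.inj h).1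
  · intro d hd
    by_cases h : d = c
    · simp [e, h]
    · rw [he2 d h]
      exact T.zeros d fun h' => hd ((hmem d).2 ⟨h, h'⟩)
  · intro d hd
    exact ((hmem d).1 hd).2
  · intro d hd
    exact (he2 d ((hmem d).1 hd).1).symm

theorem growth (k : ℕ) : Growth k (IsChild (k := k)) fun T => T.shape.rowLen where
  anti T := fun _ _ h => T.shape.rowLen_anti _ _ h
  move _ _ h := h.move
  grow T i hi hv := exists_child T i hi hv
  uniq _ _ _ h₁ h₂ h := child_unique h₁ h₂ h

theorem adj_iff {T T' : SYT k} : (sytTree k).Adj T T' ↔ IsChild T T' ∨ IsChild T' T := by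
  rw [sytTree, SimpleGraph.fromRel_adj]
  refine ⟨fun h => h.2, fun h => ⟨?_, h⟩⟩
  rintro rfl
  rcases h with h | h <;> exact absurd h.1 (by omega)

theorem eq_of_card_zero {T T' : SYT k} (h : T.shape.cells.card = 0)
    (h' : T'.shape.cells.card = 0) : T = T' := by
  rw [Finset.card_eq_zero] at h h'
  have h1 : ∀ c, c ∉ T.shape := fun c => by rw [← YoungDiagram.mem_cells, h]; simp
  have h2 : ∀ c, c ∉ T'.shape := fun c => by rw [← YoungDiagram.mem_cells, h']; simp
  refine SYT.ext' (YoungDiagram.ext (h.trans h'.symm)) (funext fun c => ?_)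
  rw [T.zeros c (h1 c), T'.zeros c (h2 c)]

theorem neighbour_root {T A : SYT k} (h : T.shape.cells.card = 0) (hA : (sytTree k).Adj T A) :
    IsChild T A ∧ A.shape.rowLen = bump T.shape.rowLen 0 := by
  rcases adj_iff.1 hA with h1 | h1
  · refine ⟨h1, ?_⟩
    obtain ⟨i, -, hi⟩ := h1.move
    rcases Nat.eq_zero_or_pos i with rfl | hpos
    · exact hi
    · exfalso
      have h2 := A.shape.rowLen_anti 0 i (Nat.zero_le _)
      rw [hi, bump_self, bump_ne _ hpos.ne] at h2
      have h3 : (0, 0) ∈ T.shape := YoungDiagram.mem_iff_lt_rowLen.2 (by omega)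
      rw [← YoungDiagram.mem_cells, Finset.card_eq_zero.1 h] at h3
      simp at h3
  · exact absurd h1.1 (by omega)

theorem map_root (hk : 1 ≤ k) (φ : SYT k ≃ SYT k)
    (hφ : ∀ T T', (sytTree k).Adj T T' → (sytTree k).Adj (φ T) (φ T')) {T : SYT k}
    (h : T.shape.cells.card = 0) : φ T = T := by
  rcases hn : (φ.symm T).shape.cells.card with _ | n
  · rw [← eq_of_card_zero hn h, φ.apply_symm_apply]
    exact eq_of_card_zero h hn
  · exfalso
    obtain ⟨A, hA⟩ := exists_parent (φ.symm T) n hn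
    obtain ⟨B, hB, -⟩ := exists_child (φ.symm T) 0 hk (fun j hj => by omega)
    have h1 : (sytTree k).Adj T (φ A) := by
      simpa using hφ _ _ (adj_iff.2 (Or.inr hA))
    have h2 : (sytTree k).Adj T (φ B) := by
      simpa using hφ _ _ (adj_iff.2 (Or.inl hB))
    obtain ⟨a1, a2⟩ := neighbour_root h h1
    obtain ⟨b1, b2⟩ := neighbour_root h h2
    have h3 : A = B := φ.injective (child_unique a1 b1 (a2.trans b2.symm))
    subst h3
    have := hA.1
    have := hB.1
    omega

theorem map_child (hk : 1 ≤ k) (φ : SYT k ≃ SYT k)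
    (hφ : ∀ T T', (sytTree k).Adj T T' → (sytTree k).Adj (φ T) (φ T')) (n : ℕ) :
    ∀ T T' : SYT k, T.shape.cells.card = n → IsChild T T' → IsChild (φ T) (φ T') := by
  induction n with
  | zero =>
    intro T T' h hc
    have h1 : (sytTree k).Adj (φ T) (φ T') := hφ _ _ (adj_iff.2 (Or.inl hc))
    refine (neighbour_root ?_ h1).1
    rw [map_root hk φ hφ h, h]
  | succ n ih =>
    intro T T' h hc
    obtain ⟨S, hS⟩ := exists_parent T n h
    have h0 := ih S T (by have := hS.1; omega) hS
    rcases adj_iff.1 (hφ _ _ (adj_iff.2 (Or.inl hc))) with h1 | h1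
    · exact h1
    · have h2 : T' = S := φ.injective (parent_unique h1 h0)
      subst h2
      have := hS.1
      have := hc.1
      omega

theorem rigid (hk : 1 ≤ k) (φ : SYT k ≃ SYT k)
    (hφ : ∀ T T', (sytTree k).Adj T T' → (sytTree k).Adj (φ T) (φ T')) (T : SYT k) :
    φ T = T := by
  have hφ' : ∀ T T' : SYT k, IsChild (φ T) (φ T') ↔ IsChild T T' := by
    intro T T'
    refine ⟨fun h => ?_, map_child hk φ hφ _ T T' rfl⟩
    rcases hn : T'.shape.cells.card with _ | n
    · have h1 := h.1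
      rw [map_root hk φ hφ hn] at h1
      omega
    · obtain ⟨S, hS⟩ := exists_parent T' n hn
      have h1 := φ.injective (parent_unique h (map_child hk φ hφ _ S T' rfl hS))
      rwa [h1]
  generalize hn : T.shape.cells.card = n
  induction n generalizing T with
  | zero => exact map_root hk φ hφ hn
  | succ n ih =>
    obtain ⟨S, hS⟩ := exists_parent T n hn
    have h0 : φ S = S := ih S (by have := hS.1; omega)
    obtain ⟨i, hi, h1⟩ := hS.move
    have h2 := (mv_invariant (growth k) φ hφ' i hi S T).2 ⟨hS, h1⟩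
    rw [h0] at h2
    exact child_unique h2.1 hS (h2.2.trans h1.symm)

end Pool.Agent.MP_291af2_co

end
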